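import Mathlib

/-!
Zero estimate modulo a prime `q` (MP_4ab349_nt, project ZE, note 2789 of helper18, part (6)).
First part: the core after the reduction by Lucas.
-/

open Finset

namespace Pool.Agent.Helper12.ZE

/-- The polynomial `x (x-1) ... (x-l+1) / l!` over `ZMod q`. -/
noncomputable def binp (q l : ℕ) [Fact q.Prime] : Polynomial (ZMod q) :=
  Polynomial.C (((l.factorial : ℕ) : ZMod q)⁻¹) * descPochhammer (ZMod q) l

theorem binp_natDegree (q l : ℕ) [Fact q.Prime] : (binp q l).natDegree ≤ l := by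
  unfold binp
  refine (Polynomial.natDegree_C_mul_le _ _).trans ?_
  rw [descPochhammer_natDegree]

theorem binp_eval (q l : ℕ) [Fact q.Prime] (hl : l < q) (x : ℕ) :
    (binp q l).eval (x : ZMod q) = ((x.choose l : ℕ) : ZMod q) := by
  unfold binp
  rw [Polynomial.eval_mul, Polynomial.eval_C, descPochhammer_eval_eq_descFactorial,
    Nat.descFactorial_eq_factorial_mul_choose]
  have h : ((l.factorial : ℕ) : ZMod q) ≠ 0 := by
    intro h
    rw [ZMod.natCast_eq_zero_iff] at h
    have := (Nat.Prime.dvd_factorial (Fact.out : q.Prime)).1 h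
    omega
  push_cast
  rw [← mul_assoc, inv_mul_cancel₀ h, one_mul]

/-- Total degree of a substitution. -/
theorem aeval_totalDegree {σ : Type*} {F : Type*} [Field F] (P : Polynomial F)
    (L : MvPolynomial σ F) (hL : L.totalDegree ≤ 1) :
    (Polynomial.aeval L P).totalDegree ≤ P.natDegree := by
  rw [Polynomial.aeval_eq_sum_range]
  refine (MvPolynomial.totalDegree_finset_sum _ _).trans ?_
  refine Finset.sup_le fun i hi => ?_
  refine (MvPolynomial.totalDegree_smul_le _ _).trans ?_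
  refine (MvPolynomial.totalDegree_pow _ _).trans ?_
  have : i ≤ P.natDegree := by
    have := Finset.mem_range.1 hi
    omega
  calc i * L.totalDegree ≤ i * 1 := Nat.mul_le_mul_left _ hL
    _ ≤ P.natDegree := by omega

section core

variable {q : ℕ} [Fact q.Prime] {r s : ℕ}

/-- The polynomial in the coordinates of the moves. -/
noncomputable def pol (g : Fin (r + 1) → ℤ) (J : Finset ((Fin r → ℕ) × ℕ))
    (co : (Fin r → ℕ) × ℕ → ZMod q) : MvPolynomial (Fin (r + 1)) (ZMod q) :=
  ∑ p ∈ J, MvPolynomial.C (co p) *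
    ((∏ i : Fin r, Polynomial.aeval (MvPolynomial.X i.succ - MvPolynomial.X i.castSucc)
        (binp q (p.1 i))) *
      Polynomial.aeval (-∑ k, MvPolynomial.C ((g k : ℤ) : ZMod q) * MvPolynomial.X k)
        (binp q p.2))

theorem pol_eval (g : Fin (r + 1) → ℤ) (J : Finset ((Fin r → ℕ) × ℕ))
    (co : (Fin r → ℕ) × ℕ → ZMod q) (hsq : s < q) (hJ : ∀ p ∈ J, ∑ i, p.1 i + p.2 < s)
    (b : Fin (r + 1) → ℤ) (e : Fin r → ℕ) (f : ℕ)
    (he : ∀ i : Fin r, (e i : ℤ) = b i.succ - b i.castSucc)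
    (hf : (f : ℤ) = -∑ k, g k * b k) :
    MvPolynomial.eval (fun k => ((b k : ℤ) : ZMod q)) (pol g J co)
      = ∑ p ∈ J, co p * ((∏ i, (((e i).choose (p.1 i) : ℕ) : ZMod q)) *
          ((f.choose p.2 : ℕ) : ZMod q)) := by
  have hcomp : ∀ (L : MvPolynomial (Fin (r + 1)) (ZMod q)) (P : Polynomial (ZMod q)),
      MvPolynomial.eval (fun k => ((b k : ℤ) : ZMod q)) (Polynomial.aeval L P)
        = P.eval (MvPolynomial.eval (fun k => ((b k : ℤ) : ZMod q)) L) := by
    intro L P
    rw [Polynomial.aeval_def, Polynomial.hom_eval₂, Polynomial.eval]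
    congr 1
    ext x
    simp
  unfold pol
  rw [map_sum]
  refine Finset.sum_congr rfl fun p hp => ?_
  have hp' := hJ p hp
  rw [map_mul, map_mul, map_prod, MvPolynomial.eval_C, hcomp]
  congr 1
  congr 1
  · refine Finset.prod_congr rfl fun i _ => ?_
    rw [hcomp]
    have h1 : MvPolynomial.eval (fun k => ((b k : ℤ) : ZMod q))
        (MvPolynomial.X i.succ - MvPolynomial.X i.castSucc) = ((e i : ℕ) : ZMod q) := by
      rw [map_sub, MvPolynomial.eval_X, MvPolynomial.eval_X, ← Int.cast_sub, ← he i]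
      simp
    rw [h1, binp_eval]
    have : p.1 i ≤ ∑ i, p.1 i := Finset.single_le_sum (fun _ _ => Nat.zero_le _) (mem_univ i)
    omega
  · have h1 : MvPolynomial.eval (fun k => ((b k : ℤ) : ZMod q))
        (-∑ k, MvPolynomial.C ((g k : ℤ) : ZMod q) * MvPolynomial.X k) = ((f : ℕ) : ZMod q) := by
      have : ((f : ℕ) : ZMod q) = (((f : ℕ) : ℤ) : ZMod q) := by simp
      rw [this, hf]
      simp
    rw [h1, binp_eval]
    omega

theorem pol_totalDegree (g : Fin (r + 1) → ℤ) (J : Finset ((Fin r → ℕ) × ℕ))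
    (co : (Fin r → ℕ) × ℕ → ZMod q) (hs : 0 < s) (hJ : ∀ p ∈ J, ∑ i, p.1 i + p.2 < s) :
    (pol g J co).totalDegree < s := by
  unfold pol
  refine lt_of_le_of_lt (MvPolynomial.totalDegree_finset_sum _ _) ?_
  rw [Finset.sup_lt_iff hs]
  intro p hp
  have hp' := hJ p hp
  refine lt_of_le_of_lt (MvPolynomial.totalDegree_mul _ _) ?_
  rw [MvPolynomial.totalDegree_C, zero_add]
  refine lt_of_le_of_lt (MvPolynomial.totalDegree_mul _ _) ?_
  refine lt_of_le_of_lt ?_ hp'
  refine Nat.add_le_add ?_ ?_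
  · refine (MvPolynomial.totalDegree_finset_prod _ _).trans ?_
    refine Finset.sum_le_sum fun i _ => ?_
    refine (aeval_totalDegree _ _ ?_).trans (binp_natDegree _ _)
    refine (MvPolynomial.totalDegree_sub _ _).trans ?_
    simp
  · refine (aeval_totalDegree _ _ ?_).trans (binp_natDegree _ _)
    rw [MvPolynomial.totalDegree_neg]
    refine (MvPolynomial.totalDegree_finset_sum _ _).trans ?_
    refine Finset.sup_le fun k _ => ?_
    refine (MvPolynomial.totalDegree_mul _ _).trans ?_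
    rw [MvPolynomial.totalDegree_C, MvPolynomial.totalDegree_X]

/-- The moves are a basis of the lattice. -/
theorem solve (g : Fin (r + 1) → ℤ) (hg : ∑ k, g k = 1) (e : Fin r → ℤ) (f : ℤ) :
    ∃ b : Fin (r + 1) → ℤ, (∀ i : Fin r, b i.succ - b i.castSucc = e i) ∧
      -∑ k, g k * b k = f := by
  obtain ⟨w, hw⟩ : ∃ w : Fin (r + 1) → ℤ, w = Fin.partialSum e := ⟨_, rfl⟩
  refine ⟨fun k => w k + (-f - ∑ k, g k * w k), fun i => ?_, ?_⟩
  · have : w i.succ = w i.castSucc + e i := by rw [hw, Fin.partialSum_succ]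
    simp only [this]
    ring
  · simp only [mul_add, Finset.sum_add_distrib, ← Finset.sum_mul, hg]
    ring

/-- The polynomial is not zero. -/
theorem pol_ne_zero (g : Fin (r + 1) → ℤ) (hg : ∑ k, g k = 1) (J : Finset ((Fin r → ℕ) × ℕ))
    (co : (Fin r → ℕ) × ℕ → ZMod q) (hsq : s < q) (hJ : ∀ p ∈ J, ∑ i, p.1 i + p.2 < s)
    (h0 : ∃ p ∈ J, co p ≠ 0) : pol g J co ≠ 0 := by
  classical
  intro hz
  -- a nonzero coefficient with minimal sum
  obtain ⟨p, hp, hmin⟩ := Finset.exists_min_image (J.filter fun p => co p ≠ 0)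
    (fun p => ∑ i, p.1 i + p.2) (by
      obtain ⟨p, hp, hp0⟩ := h0
      exact ⟨p, Finset.mem_filter.2 ⟨hp, hp0⟩⟩)
  rw [Finset.mem_filter] at hp
  obtain ⟨b, hb, hbf⟩ := solve g hg (fun i => (p.1 i : ℤ)) p.2
  have h1 := pol_eval g J co hsq hJ b p.1 p.2 (fun i => (hb i).symm) hbf.symm
  rw [hz, map_zero, Finset.sum_eq_single p] at h1
  · apply hp.2
    simpa using h1.symm
  · intro p' hp' hne
    by_cases hc : co p' = 0
    · rw [hc, zero_mul]
    · have hm := hmin p' (Finset.mem_filter.2 ⟨hp', hc⟩)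
      by_cases hall : (∀ i, p'.1 i ≤ p.1 i) ∧ p'.2 ≤ p.2
      · exfalso
        apply hne
        have hs1 : ∑ i, p'.1 i ≤ ∑ i, p.1 i := Finset.sum_le_sum fun i _ => hall.1 i
        have hs2 : ∑ i, p'.1 i = ∑ i, p.1 i := by
          have := hall.2
          omega
        have hs3 : p'.2 = p.2 := by
          have := hall.2
          omega
        have := (Finset.sum_eq_sum_iff_of_le (fun i _ => hall.1 i)).1 hs2
        exact Prod.ext (funext fun i => this i (mem_univ i)) hs3
      · rw [not_and_or] at hall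
        rcases hall with hall | hall
        · push Not at hall
          obtain ⟨i, hi⟩ := hall
          rw [Finset.prod_eq_zero (mem_univ i), zero_mul, mul_zero]
          rw [Nat.choose_eq_zero_of_lt hi, Nat.cast_zero]
        · rw [Nat.choose_eq_zero_of_lt (not_le.1 hall), Nat.cast_zero, mul_zero, mul_zero]
  · intro h
    exact absurd hp.1 h

theorem prod_zpow_sum {ι F : Type*} [Field F] (a : F) (ha : a ≠ 0) (t : Finset ι) (f : ι → ℤ) :
    ∏ i ∈ t, a ^ f i = a ^ (∑ i ∈ t, f i) := by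
  classical
  induction t using Finset.induction_on with
  | empty => simp
  | insert i t hi ih => rw [Finset.prod_insert hi, Finset.sum_insert hi, ih, zpow_add₀ ha]

/-- The character part. -/
theorem core_char (hsq : s < q) (g : Fin (r + 1) → ℤ) (hg : ∑ k, g k = 1)
    (P : MvPolynomial (Fin (r + 1)) (ZMod q)) (hP : P.totalDegree < s)
    (d : ZMod q) (hd : d ≠ 0) (ρ : Fin r → ZMod q) (hρ : ∀ i, ρ i ≠ 0)
    (κ : ZMod q) (hκ : κ ≠ 0) (hκ1 : κ ≠ 1)
    (H : ∀ k : Fin (r + 1), ∃ b : Fin (r + 1) → ℤ, ∀ m : ℕ, m ≤ s →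
      ∃ (e : Fin r → ℕ) (f : ℕ),
        (∀ i, (e i : ℤ) = (b i.succ + (Pi.single k m : Fin (r + 1) → ℕ) i.succ)
          - (b i.castSucc + (Pi.single k m : Fin (r + 1) → ℕ) i.castSucc)) ∧
        ((f : ℤ) = -∑ k', g k' * (b k' + (Pi.single k m : Fin (r + 1) → ℕ) k')) ∧
        MvPolynomial.eval (fun k' => ((b k' + (Pi.single k m : Fin (r + 1) → ℕ) k' : ℤ) : ZMod q)) P
          + d * ((∏ i, ρ i ^ e i) * κ ^ f) = 0) : False := by
  classical
  -- characters of the moves
  set w : Fin (r + 1) → ZMod q := fun k =>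
    (∏ i : Fin r, ρ i ^ ((if k = i.succ then 1 else 0) - (if k = i.castSucc then 1 else 0) : ℤ))
      * κ ^ (-g k) with hw
  have hwprod : ∏ k, w k = κ⁻¹ := by
    have h1 : ∏ k : Fin (r + 1), ∏ i : Fin r,
        ρ i ^ ((if k = i.succ then 1 else 0) - (if k = i.castSucc then 1 else 0) : ℤ) = 1 := by
      rw [Finset.prod_comm]
      refine Finset.prod_eq_one fun i _ => ?_
      rw [prod_zpow_sum (ρ i) (hρ i)]
      simp
    have h2 : ∏ k : Fin (r + 1), κ ^ (-g k) = κ⁻¹ := by
      rw [prod_zpow_sum κ hκ, Finset.sum_neg_distrib, hg, zpow_neg_one]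
    rw [hw]
    simp only [Finset.prod_mul_distrib]
    rw [h1, h2, one_mul]
  obtain ⟨k, hk⟩ : ∃ k, w k ≠ 1 := by
    by_contra hall
    push Not at hall
    have : ∏ k, w k = 1 := Finset.prod_eq_one fun k _ => hall k
    rw [hwprod] at this
    exact hκ1 (inv_eq_one.1 this)
  obtain ⟨b, hb⟩ := H k
  -- the value of the character along the line
  set χ0 : ZMod q := (∏ i : Fin r, ρ i ^ (b i.succ - b i.castSucc)) * κ ^ (-∑ k', g k' * b k')
    with hχ0
  have hχ0' : χ0 ≠ 0 := by
    rw [hχ0]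
    refine mul_ne_zero (Finset.prod_ne_zero_iff.2 fun i _ => zpow_ne_zero _ (hρ i))
      (zpow_ne_zero _ hκ)
  have hw0 : w k ≠ 0 := by
    rw [hw]
    exact mul_ne_zero (Finset.prod_ne_zero_iff.2 fun i _ => zpow_ne_zero _ (hρ i))
      (zpow_ne_zero _ hκ)
  set Q : Polynomial (ZMod q) := MvPolynomial.aeval
    (fun k' => Polynomial.C ((b k' : ℤ) : ZMod q) + if k' = k then Polynomial.X else 0) P with hQ
  have hQdeg : Q.natDegree < s := by
    refine lt_of_le_of_lt (MvPolynomial.aeval_natDegree_le P le_rfl _ (n := 1) fun k' => ?_) ?_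
    · split_ifs
      · refine (Polynomial.natDegree_add_le _ _).trans ?_
        simp
      · simp
    · omega
  have hval : ∀ m : ℕ, m ≤ s → Q.eval (m : ZMod q) = -(d * χ0 * w k ^ m) := by
    intro m hm
    obtain ⟨e, f, he, hf, hz⟩ := hb m hm
    have h1 : Q.eval (m : ZMod q) = MvPolynomial.eval
        (fun k' => ((b k' + (Pi.single k m : Fin (r + 1) → ℕ) k' : ℤ) : ZMod q)) P := by
      rw [hQ, MvPolynomial.aeval_def, ← Polynomial.coe_evalRingHom, MvPolynomial.hom_eval₂]
      rw [MvPolynomial.eval, MvPolynomial.coe_eval₂Hom]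
      congr 1
      · ext x
        simp
      · funext k'
        by_cases hkk : k' = k
        · subst hkk
          simp
        · simp [hkk, Pi.single_eq_of_ne hkk]
    have h2 : (∏ i, ρ i ^ e i) * κ ^ f = χ0 * w k ^ m := by
      have e1 : ∀ i, ρ i ^ e i = ρ i ^ (b i.succ - b i.castSucc) *
          (ρ i ^ ((if k = i.succ then 1 else 0) - (if k = i.castSucc then 1 else 0) : ℤ)) ^ m := by
        intro i
        rw [← zpow_natCast, he i, ← zpow_natCast, ← zpow_mul, ← zpow_add₀ (hρ i)]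
        congr 1
        simp only [Pi.single_apply, @eq_comm _ k]
        split_ifs <;> push_cast <;> ring
      have e2 : κ ^ f = κ ^ (-∑ k', g k' * b k') * (κ ^ (-g k)) ^ m := by
        have e3 : ∑ k', g k' * (((Pi.single k m : Fin (r + 1) → ℕ) k' : ℕ) : ℤ) = g k * m := by
          rw [Finset.sum_eq_single k]
          · simp
          · intro k' _ hkk
            simp [Pi.single_eq_of_ne hkk]
          · intro h
            exact absurd (mem_univ k) h
        rw [← zpow_natCast κ f, hf, ← zpow_natCast (κ ^ (-g k)), ← zpow_mul, ← zpow_add₀ hκ]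
        congr 1
        simp only [mul_add, Finset.sum_add_distrib]
        rw [e3]
        ring
      rw [e2, Finset.prod_congr rfl fun i _ => e1 i, Finset.prod_mul_distrib, Finset.prod_pow,
        hχ0, hw]
      simp only [mul_pow]
      ring
    rw [h1]
    rw [h2] at hz
    linear_combination hz
  have hdiff := congr_fun (Polynomial.fwdDiff_iter_eq_zero_of_degree_lt hQdeg) 0
  rw [fwdDiff_iter_eq_sum_shift, Pi.zero_apply] at hdiff
  have hsum : ∑ m ∈ Finset.range (s + 1), ((-1 : ℤ) ^ (s - m) * s.choose m) •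
      Polynomial.eval (0 + m • (1 : ZMod q)) Q = -(d * χ0 * (w k - 1) ^ s) := by
    rw [sub_eq_add_neg, add_pow, Finset.mul_sum, ← Finset.sum_neg_distrib]
    refine Finset.sum_congr rfl fun m hm => ?_
    have hm' : m ≤ s := by
      have := Finset.mem_range.1 hm
      omega
    rw [zero_add, nsmul_eq_mul, mul_one, hval m hm', zsmul_eq_mul]
    push_cast
    ring
  rw [hsum] at hdiff
  rw [neg_eq_zero] at hdiff
  exact absurd hdiff (mul_ne_zero (mul_ne_zero hd hχ0') (pow_ne_zero _ (sub_ne_zero.2 hk)))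

/-- CORE of the zero estimate. -/
theorem core (hsq : s < q) (hs : 0 < s) (g : Fin (r + 1) → ℤ) (hg : ∑ k, g k = 1)
    (J : Finset ((Fin r → ℕ) × ℕ)) (hJ : ∀ p ∈ J, ∑ i, p.1 i + p.2 < s)
    (co : (Fin r → ℕ) × ℕ → ZMod q) (d : ZMod q) (ρ : Fin r → ZMod q) (hρ : ∀ i, ρ i ≠ 0)
    (κ : ZMod q) (hκ : κ ≠ 0) (hκ1 : κ ≠ 1)
    (H : ∀ γ : Fin (r + 1) → ℕ, ∑ k, γ k ≤ s → ∃ (e0 : Fin r → ℤ) (f0 : ℤ),
      ∀ m : Fin (r + 1) → ℕ, (∀ k, m k ≤ γ k) → ∃ (e : Fin r → ℕ) (f : ℕ),
        (∀ i, (e i : ℤ) = e0 i + (m i.succ : ℤ) - m i.castSucc) ∧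
        ((f : ℤ) = f0 - ∑ k, g k * m k) ∧
        ∑ p ∈ J, co p * ((∏ i, (((e i).choose (p.1 i) : ℕ) : ZMod q)) *
          ((f.choose p.2 : ℕ) : ZMod q)) + d * ((∏ i, ρ i ^ e i) * κ ^ f) = 0) :
    d = 0 ∧ ∀ p ∈ J, co p = 0 := by
  classical
  -- rewritten with the base point in the coordinates of the moves
  have H' : ∀ γ : Fin (r + 1) → ℕ, ∑ k, γ k ≤ s → ∃ b : Fin (r + 1) → ℤ,
      ∀ m : Fin (r + 1) → ℕ, (∀ k, m k ≤ γ k) → ∃ (e : Fin r → ℕ) (f : ℕ),
        (∀ i, (e i : ℤ) = (b i.succ + m i.succ) - (b i.castSucc + m i.castSucc)) ∧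
        ((f : ℤ) = -∑ k, g k * (b k + m k)) ∧
        MvPolynomial.eval (fun k => ((b k + m k : ℤ) : ZMod q)) (pol g J co)
          + d * ((∏ i, ρ i ^ e i) * κ ^ f) = 0 := by
    intro γ hγ
    obtain ⟨e0, f0, h⟩ := H γ hγ
    obtain ⟨b, hb, hbf⟩ := solve g hg e0 f0
    refine ⟨b, fun m hm => ?_⟩
    obtain ⟨e, f, he, hf, hsum⟩ := h m hm
    have he' : ∀ i, (e i : ℤ) = (b i.succ + m i.succ) - (b i.castSucc + m i.castSucc) := by
      intro i
      rw [he i, ← hb i]
      ring
    have hf' : (f : ℤ) = -∑ k, g k * (b k + m k) := by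
      rw [hf, ← hbf]
      simp only [mul_add, Finset.sum_add_distrib]
      ring
    refine ⟨e, f, he', hf', ?_⟩
    rw [pol_eval g J co hsq hJ (fun k => b k + m k) e f he' hf']
    exact hsum
  have hdeg := pol_totalDegree g J co hs hJ
  -- part (i)
  have hd : d = 0 := by
    by_contra hd
    exact core_char hsq g hg (pol g J co) hdeg d hd ρ hρ κ hκ hκ1 fun k => by
      obtain ⟨b, hb⟩ := H' (Pi.single k s) (by simp)
      refine ⟨b, fun m hm => ?_⟩
      obtain ⟨e, f, he, hf, hz⟩ := hb (Pi.single k m) (fun k' => by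
        by_cases h : k' = k
        · subst h
          simpa using hm
        · simp [Pi.single_eq_of_ne h])
      exact ⟨e, f, he, hf, hz⟩
  refine ⟨hd, ?_⟩
  -- part (ii)
  by_contra hne
  push Not at hne
  have hP := pol_ne_zero g hg J co hsq hJ hne
  obtain ⟨t, ht, htd⟩ : ∃ t ∈ (pol g J co).support, (pol g J co).totalDegree = t.degree := by
    obtain ⟨t, ht, htd⟩ := Finset.exists_mem_eq_sup (pol g J co).support
      (MvPolynomial.support_nonempty.2 hP) (fun t => t.sum fun _ e => e)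
    exact ⟨t, ht, htd⟩
  have htsum : ∑ k, t k = t.degree := by
    rw [Finsupp.degree_eq_sum]
  obtain ⟨b, hb⟩ := H' t (by rw [htsum]; omega)
  obtain ⟨x, hx, hx0⟩ := MvPolynomial.combinatorial_nullstellensatz_exists_eval_nonzero
    (pol g J co) t (MvPolynomial.mem_support_iff.1 ht) htd
    (fun k => (Finset.range (t k + 1)).image fun m : ℕ => ((b k + m : ℤ) : ZMod q))
    (fun k => by
      rw [Finset.card_image_of_injOn, Finset.card_range]
      · omega
      · intro m1 h1 m2 h2 h12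
        have hk : t k ≤ ∑ k, t k := Finset.single_le_sum (fun _ _ => Nat.zero_le _) (mem_univ k)
        simp only [Finset.coe_range, Set.mem_Iio] at h1 h2
        simp only [Int.cast_add, Int.cast_natCast, add_right_inj] at h12
        rw [ZMod.natCast_eq_natCast_iff'] at h12
        rwa [Nat.mod_eq_of_lt (by omega), Nat.mod_eq_of_lt (by omega)] at h12)
  simp only [Finset.mem_image, Finset.mem_range] at hx
  choose m hm hmx using hx
  obtain ⟨e, f, he, hf, hz⟩ := hb m (fun k => by have := hm k; omega)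
  rw [hd, zero_mul, add_zero] at hz
  apply hx0
  rw [← hz]
  congr 1
  congr 1
  funext k
  exact (hmx k).symm

/-- The class lemma in the cyclic numbering of note 2789 (statement of helper17): index `0` is
the move `v_0`, index `i.succ` is the move `v_(i+1)`. -/
theorem class_lemma (r s : ℕ) (hs0 : 0 < s) (hs : s < q) (g : Fin (r + 1) → ℤ)
    (hg : ∑ i, g i = -1) (J : Finset ((Fin r → ℕ) × ℕ))
    (hJ : ∀ p ∈ J, (∑ i, p.1 i) + p.2 < s) (cc : (Fin r → ℕ) × ℕ → ZMod q) (dd : ZMod q)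
    (rho : Fin r → ZMod q) (hrho : ∀ i, rho i ≠ 0) (kap : ZMod q) (hk0 : kap ≠ 0)
    (hk1 : kap ≠ 1)
    (H : ∀ gam : Fin (r + 1) → ℕ, ∑ i, gam i ≤ s → ∃ f0 : ℤ, ∀ m : Fin (r + 1) → ℕ,
      (∀ i, m i ≤ gam i) → ∃ (x : Fin r → ℕ) (f : ℕ),
        (∀ i : Fin r, (x i : ℤ) = gam i.succ + m (i.succ + 1) - m i.succ) ∧
        (f : ℤ) = f0 + ∑ i, (m i : ℤ) * g i ∧
        (∑ p ∈ J, cc p * (∏ i, ((x i).choose (p.1 i) : ZMod q)) * (f.choose p.2 : ZMod q))
          + dd * (∏ i, rho i ^ x i) * kap ^ f = 0) :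
    (∀ p ∈ J, cc p = 0) ∧ dd = 0 := by
  have hbij : Function.Bijective fun k : Fin (r + 1) => k + 1 :=
    (Equiv.addRight (1 : Fin (r + 1))).bijective
  have hc := core (q := q) hs hs0 (fun k => -g (k + 1)) (by
    rw [Finset.sum_neg_distrib, Function.Bijective.sum_comp hbij (fun k => g k), hg, neg_neg])
    J hJ cc dd rho hrho kap hk0 hk1 (by
      intro γ hγ
      obtain ⟨f0, hf0⟩ := H (fun k => γ (k - 1)) (by
        have hbij' : Function.Bijective fun k : Fin (r + 1) => k - 1 :=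
          (Equiv.subRight (1 : Fin (r + 1))).bijective
        rw [Function.Bijective.sum_comp hbij' (fun k => γ k)]
        exact hγ)
      refine ⟨fun i => (γ i.castSucc : ℤ), f0, fun m hm => ?_⟩
      obtain ⟨x, f, hx, hf, hsum⟩ := hf0 (fun k => m (k - 1)) (fun k => hm _)
      refine ⟨x, f, fun i => ?_, ?_, ?_⟩
      · have e1 : i.succ - 1 = i.castSucc := by
          rw [sub_eq_iff_eq_add, Fin.coeSucc_eq_succ]
        rw [hx i, e1]
        simp only [add_sub_cancel_right]
      · rw [hf]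
        rw [← Function.Bijective.sum_comp hbij (fun k => ((m (k - 1) : ℕ) : ℤ) * g k)]
        simp only [add_sub_cancel_right]
        rw [sub_eq_add_neg, ← Finset.sum_neg_distrib]
        congr 1
        refine Finset.sum_congr rfl fun k _ => ?_
        ring
      · rw [← hsum]
        congr 1
        · refine Finset.sum_congr rfl fun p _ => ?_
          ring
        · ring)
  exact ⟨hc.2, hc.1⟩

end core

end Pool.Agent.Helper12.ZE
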