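import Pool.Agent.Helper18.ZE.Defs

/-!
ZE, piece D1: the exact columns span the other columns in a ring with `π ^ ((s - 1) q) = 0`.
-/

set_option autoImplicit false

namespace Pool.Agent.Helper12.ZE

open Finset Pool.Agent.Helper18.ZE

/-- Truncated binomial theorem, times a binomial coefficient. -/
theorem choose_pow {R : Type} [CommRing R] (z : R) (n : ℕ) (hz : z ^ n = 0) (a e : ℕ) :
    (1 + z) ^ e * ((e.choose a : ℕ) : R)
      = ∑ i ∈ range n, z ^ i * ((1 + z) ^ a * (((a + i).choose a : ℕ) : R)) *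
          ((e.choose (a + i) : ℕ) : R) := by
  by_cases hea : e < a
  · rw [Nat.choose_eq_zero_of_lt hea, Nat.cast_zero, mul_zero]
    symm
    refine Finset.sum_eq_zero fun i _ => ?_
    rw [Nat.choose_eq_zero_of_lt (by omega : e < a + i), Nat.cast_zero, mul_zero]
  · have hea' : a ≤ e := not_lt.1 hea
    have h1 : (1 + z) ^ e = (1 + z) ^ a * (1 + z) ^ (e - a) := by
      rw [← pow_add, Nat.add_sub_cancel' hea']
    have h2 : (1 + z) ^ (e - a) = ∑ i ∈ range n, z ^ i * (((e - a).choose i : ℕ) : R) := by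
      have h3 : (1 + z) ^ (e - a)
          = ∑ i ∈ range (max (e - a + 1) n), z ^ i * (((e - a).choose i : ℕ) : R) := by
        rw [add_comm 1 z, add_pow]
        simp only [one_pow, mul_one]
        refine Finset.sum_subset (Finset.range_mono (le_max_left _ _)) fun i _ hi => ?_
        rw [Finset.mem_range, not_lt] at hi
        rw [Nat.choose_eq_zero_of_lt (by omega), Nat.cast_zero, mul_zero]
      rw [h3]
      symm
      refine Finset.sum_subset (Finset.range_mono (le_max_right _ _)) fun i _ hi => ?_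
      rw [Finset.mem_range, not_lt] at hi
      have : z ^ i = 0 := by
        rw [← Nat.add_sub_cancel' hi, pow_add, hz, zero_mul]
      rw [this, zero_mul]
    rw [h1, h2, Finset.mul_sum, Finset.sum_mul]
    refine Finset.sum_congr rfl fun i _ => ?_
    have h4 : e.choose a * (e - a).choose i = e.choose (a + i) * (a + i).choose a := by
      have := Nat.choose_mul (n := e) (Nat.le_add_right a i)
      rw [this, Nat.add_sub_cancel_left]
    have h5 : ((e.choose a : ℕ) : R) * (((e - a).choose i : ℕ) : R)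
        = ((e.choose (a + i) : ℕ) : R) * (((a + i).choose a : ℕ) : R) := by
      exact_mod_cast congrArg (Nat.cast (R := R)) h4
    linear_combination ((1 + z) ^ a * z ^ i) * h5

/-- D1: in a commutative ring with `π ^ ((s - 1) q) = 0`, the other columns are combinations of
the exact columns. -/
theorem span_exact {r q s : ℕ} (hq : 0 < q) (hr : 1 ≤ r) (hs : 1 ≤ s) {R : Type} [CommRing R]
    (π : R) (hπ : π ^ ((s - 1) * q) = 0) (u κ : R) (ρ : Fin r → R) (hρ : ∀ i, π ∣ ρ i - 1)
    (hκ : π ^ q ∣ κ - 1) (a : Rx r q) :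
    ∃ x : Ex r q s → R, ∀ v : Row r,
      (u * (∏ i : Fin r, ρ i ^ v.1 i.succ) * κ ^ v.2) * (bin v a.1 : R) =
        ∑ p : Ex r q s, x p * ((bin v p.1.1 * v.2.choose p.1.2 : ℕ) : R) := by
  classical
  set φ : Ex r q s → Row r → R := fun p v => ((bin v p.1.1 * v.2.choose p.1.2 : ℕ) : R) with hφ
  have hmem : ∀ (j : Fin r → ℕ) (l : ℕ), ∑ i, j i + q * l < s * q →
      (fun v : Row r => ((bin v j * v.2.choose l : ℕ) : R)) ∈
        Submodule.span R (Set.range φ) := by
    intro j l hjl
    have hjlE : (j, l) ∈ Ex r q s := by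
      unfold Ex
      rw [Finset.mem_filter, Finset.mem_product, Fintype.mem_piFinset]
      refine ⟨⟨fun i => ?_, ?_⟩, hjl⟩
      · have : j i ≤ ∑ i, j i := Finset.single_le_sum (fun _ _ => Nat.zero_le _) (mem_univ i)
        exact Finset.mem_range.2 (by simp only; omega)
      · rw [Finset.mem_range]
        by_contra hl
        have : s * q ≤ q * l := by
          rw [mul_comm s q]
          exact Nat.mul_le_mul_left q (not_lt.1 hl)
        omega
    exact Submodule.subset_span ⟨⟨(j, l), hjlE⟩, rfl⟩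
  -- the sum of the entries of `a`
  have ha : ∑ i, a.1 i < q := by
    have h1 : ∀ i, a.1 i ≤ (q - 1) / r := by
      intro i
      have := a.2
      unfold Rx at this
      rw [Fintype.mem_piFinset] at this
      have := Finset.mem_range.1 (this i)
      omega
    calc ∑ i, a.1 i ≤ ∑ _i : Fin r, (q - 1) / r := Finset.sum_le_sum fun i _ => h1 i
      _ = r * ((q - 1) / r) := by simp
      _ ≤ q - 1 := Nat.mul_div_le _ _
      _ < q := by omega
  choose x hx using hρ
  obtain ⟨y, hy⟩ := hκ
  set n : ℕ := (s - 1) * q with hn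
  have hρ' : ∀ i, ρ i = 1 + π * x i := fun i => by rw [← hx i]; ring
  have hκ' : κ = 1 + π ^ q * y := by rw [← hy]; ring
  have hz1 : ∀ i, (π * x i) ^ n = 0 := fun i => by rw [mul_pow, hπ, zero_mul]
  have hz2 : (π ^ q * y) ^ (s - 1) = 0 := by
    rw [mul_pow, ← pow_mul, mul_comm q, hπ, zero_mul]
  suffices h : (fun v : Row r => (u * (∏ i : Fin r, ρ i ^ v.1 i.succ) * κ ^ v.2) *
      (bin v a.1 : R)) ∈ Submodule.span R (Set.range φ) by
    rw [Submodule.mem_span_range_iff_exists_fun] at h
    obtain ⟨c, hc⟩ := h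
    refine ⟨c, fun v => ?_⟩
    have := congr_fun hc v
    rw [Finset.sum_apply] at this
    simp only [Pi.smul_apply, smul_eq_mul] at this
    rw [← this]
  have key : (fun v : Row r => (u * (∏ i : Fin r, ρ i ^ v.1 i.succ) * κ ^ v.2) *
      (bin v a.1 : R))
      = ∑ j ∈ Fintype.piFinset (fun _ : Fin r => range n), ∑ l ∈ range (s - 1),
        (u * (∏ i, (π * x i) ^ j i * ((1 + π * x i) ^ a.1 i * (((a.1 i + j i).choose (a.1 i) : ℕ) : R)))
          * (π ^ q * y) ^ l) •
          (fun v : Row r => ((bin v (fun i => a.1 i + j i) * v.2.choose l : ℕ) : R)) := by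
    funext v
    rw [Finset.sum_apply]
    have h1 : (∏ i : Fin r, ρ i ^ v.1 i.succ) * (bin v a.1 : R)
        = ∑ j ∈ Fintype.piFinset (fun _ : Fin r => range n),
          ∏ i, ((π * x i) ^ j i * ((1 + π * x i) ^ a.1 i * (((a.1 i + j i).choose (a.1 i) : ℕ) : R))
            * (((v.1 i.succ).choose (a.1 i + j i) : ℕ) : R)) := by
      rw [← Finset.prod_univ_sum (fun _ : Fin r => range n) (fun i t =>
        ((π * x i) ^ t * ((1 + π * x i) ^ a.1 i * (((a.1 i + t).choose (a.1 i) : ℕ) : R))
            * (((v.1 i.succ).choose (a.1 i + t) : ℕ) : R)))]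
      unfold bin
      push_cast
      rw [← Finset.prod_mul_distrib]
      refine Finset.prod_congr rfl fun i _ => ?_
      rw [hρ' i, choose_pow _ n (hz1 i)]
    have h2 : κ ^ v.2 = ∑ l ∈ range (s - 1), (π ^ q * y) ^ l * ((v.2.choose l : ℕ) : R) := by
      have := choose_pow (π ^ q * y) (s - 1) hz2 0 v.2
      simpa [hκ'] using this
    have h3 : (u * (∏ i : Fin r, ρ i ^ v.1 i.succ) * κ ^ v.2) * (bin v a.1 : R)
        = u * ((∏ i : Fin r, ρ i ^ v.1 i.succ) * (bin v a.1 : R)) * κ ^ v.2 := by ring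
    rw [h3, h1, h2, Finset.mul_sum (Fintype.piFinset fun _ : Fin r => range n), Finset.sum_mul]
    refine Finset.sum_congr rfl fun j _ => ?_
    rw [Finset.mul_sum, Finset.sum_apply]
    refine Finset.sum_congr rfl fun l _ => ?_
    rw [Pi.smul_apply, smul_eq_mul, Finset.prod_mul_distrib]
    unfold bin
    push_cast
    ring
  rw [key]
  refine Submodule.sum_mem _ fun j _ => Submodule.sum_mem _ fun l _ => ?_
  by_cases hjl : ∑ i, j i + q * l < n
  · refine Submodule.smul_mem _ _ (hmem _ _ ?_)
    rw [Finset.sum_add_distrib]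
    have : s * q = n + q := by
      rw [hn]
      obtain ⟨t, rfl⟩ : ∃ t, s = t + 1 := ⟨s - 1, by omega⟩
      simp only [Nat.add_sub_cancel]
      ring
    omega
  · have hzero : u * (∏ i, (π * x i) ^ j i *
        ((1 + π * x i) ^ a.1 i * (((a.1 i + j i).choose (a.1 i) : ℕ) : R))) * (π ^ q * y) ^ l = 0 := by
      have h1 : u * (∏ i, (π * x i) ^ j i *
          ((1 + π * x i) ^ a.1 i * (((a.1 i + j i).choose (a.1 i) : ℕ) : R))) * (π ^ q * y) ^ l
          = π ^ (∑ i, j i + q * l) * (u * (∏ i, (x i) ^ j i *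
          ((1 + π * x i) ^ a.1 i * (((a.1 i + j i).choose (a.1 i) : ℕ) : R))) * y ^ l) := by
        have h2 : ∏ i, (π * x i) ^ j i *
            ((1 + π * x i) ^ a.1 i * (((a.1 i + j i).choose (a.1 i) : ℕ) : R))
            = π ^ (∑ i, j i) * ∏ i, (x i) ^ j i *
            ((1 + π * x i) ^ a.1 i * (((a.1 i + j i).choose (a.1 i) : ℕ) : R)) := by
          rw [← Finset.prod_pow_eq_pow_sum, ← Finset.prod_mul_distrib]
          refine Finset.prod_congr rfl fun i _ => ?_
          rw [mul_pow]
          ring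
        rw [h2, mul_pow, ← pow_mul, pow_add]
        ring
      rw [h1, ← Nat.add_sub_cancel' (not_lt.1 hjl), pow_add, hπ, zero_mul, zero_mul]
    rw [hzero, zero_smul]
    exact Submodule.zero_mem _

end Pool.Agent.Helper12.ZE
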